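import Mathlib

/-!
# MP_ecaebc_co: sums and products, profinite fibres.  Part 1: arithmetic lemmas.

`tp n` = the three leading binary digits of `n`, `mh n` = the logarithm of `n` in base 2 rounded in a way which is
additive on products whose factors and value have the same leading digits, `sm K n` = the `K`-smooth part of `n`.
-/

set_option autoImplicit false

namespace Pool.Agent.Helper2.SPF

open Finset

/-- the three leading binary digits -/
def tp (n : ℕ) : ℕ := n / 2 ^ (Nat.log 2 n - 2)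

/-- rounded logarithm -/
def mh (n : ℕ) : ℕ := Nat.log 2 n + (if 6 ≤ tp n then 1 else 0)

/-- the two leading binary digits (2 or 3) -/
def sb (n : ℕ) : ℕ := 2 * n / 2 ^ (Nat.log 2 n)

/-- the `K`-smooth part -/
def sm (K n : ℕ) : ℕ := ∏ p ∈ (range (K + 1)).filter Nat.Prime, p ^ (n.factorization p)

/-- the exponent of 2 -/
def v2 (n : ℕ) : ℕ := n.factorization 2

lemma tp_spec {n : ℕ} (hn : 4 ≤ n) : tp n * 2 ^ (Nat.log 2 n - 2) ≤ n ∧
    n < (tp n + 1) * 2 ^ (Nat.log 2 n - 2) ∧ 2 ^ (Nat.log 2 n) = 4 * 2 ^ (Nat.log 2 n - 2) ∧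
    4 ≤ tp n ∧ tp n ≤ 7 ∧ 2 ≤ Nat.log 2 n := by
  have hL : 2 ≤ Nat.log 2 n := (Nat.le_log_iff_pow_le (by norm_num) (by omega)).mpr hn
  have hpow : 2 ^ (Nat.log 2 n) = 4 * 2 ^ (Nat.log 2 n - 2) := by
    have : Nat.log 2 n = 2 + (Nat.log 2 n - 2) := by omega
    conv_lhs => rw [this, pow_add]
    norm_num
  have h1 : 2 ^ (Nat.log 2 n) ≤ n := Nat.pow_log_le_self 2 (by omega)
  have h2 : n < 2 ^ (Nat.log 2 n + 1) := Nat.lt_pow_succ_log_self (by norm_num) n
  have hP : 0 < 2 ^ (Nat.log 2 n - 2) := by positivity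
  rw [hpow] at h1
  rw [pow_succ, hpow] at h2
  refine ⟨Nat.div_mul_le_self _ _, ?_, hpow, ?_, ?_, hL⟩
  · unfold tp
    rw [mul_comm]
    exact Nat.lt_mul_div_succ n hP
  · exact (Nat.le_div_iff_mul_le hP).mpr h1
  · have : n / 2 ^ (Nat.log 2 n - 2) < 8 := (Nat.div_lt_iff_lt_mul hP).mpr (by linarith)
    unfold tp
    omega

/-- adding a small number does not change the leading digits of a number divisible by a large power of 2 -/
lemma tp_add {a b t : ℕ} (ha : 0 < a) (hb : 0 < b) (hd : 2 ^ t ∣ b) (hat : 4 * a < 2 ^ t) :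
    Nat.log 2 (a + b) = Nat.log 2 b ∧ tp (a + b) = tp b ∧ mh (a + b) = mh b := by
  have ht : 3 ≤ t := by
    by_contra h
    have : 2 ^ t ≤ 2 ^ 2 := Nat.pow_le_pow_right (by norm_num) (by omega)
    omega
  have hbt : 2 ^ t ≤ b := Nat.le_of_dvd hb hd
  have htL : t ≤ Nat.log 2 b := (Nat.le_log_iff_pow_le (by norm_num) (by omega)).mpr hbt
  obtain ⟨w, hw⟩ := hd
  have h4 : 4 ≤ b := by
    have : 2 ^ 2 ≤ 2 ^ t := Nat.pow_le_pow_right (by norm_num) (by omega)
    omega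
  obtain ⟨s1, s2, s3, s4, s5, s6⟩ := tp_spec h4
  have hu : 2 ^ t = 2 ^ (t - 2) * 4 := by
    have : t = (t - 2) + 2 := by omega
    conv_lhs => rw [this, pow_add]
    norm_num
  have hu0 : 0 < 2 ^ (t - 2) := by positivity
  have hP : 2 ^ (Nat.log 2 b - 2) = 2 ^ (t - 2) * 2 ^ (Nat.log 2 b - t) := by
    rw [← pow_add]
    congr 1
    omega
  have hq : (a + b) / 2 ^ (Nat.log 2 b - 2) = b / 2 ^ (Nat.log 2 b - 2) := by
    rw [hP, ← Nat.div_div_eq_div_mul, ← Nat.div_div_eq_div_mul]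
    congr 1
    rw [hw, hu, mul_assoc, Nat.add_mul_div_left _ _ hu0, Nat.mul_div_cancel_left _ hu0,
      Nat.div_eq_of_lt (by omega), zero_add]
  have hlt : a + b < 2 ^ (Nat.log 2 b + 1) := by
    have hP0 : 0 < 2 ^ (Nat.log 2 b - 2) := by positivity
    have h7 : (a + b) / 2 ^ (Nat.log 2 b - 2) < 8 := by
      rw [hq]
      have : b / 2 ^ (Nat.log 2 b - 2) ≤ 7 := s5
      omega
    have := (Nat.div_lt_iff_lt_mul hP0).mp h7
    rw [pow_succ, s3]
    linarith
  have hlog : Nat.log 2 (a + b) = Nat.log 2 b := by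
    rw [Nat.log_eq_iff (Or.inr ⟨by norm_num, by omega⟩)]
    exact ⟨(Nat.pow_log_le_self 2 (by omega)).trans (by omega), hlt⟩
  have htp : tp (a + b) = tp b := by
    unfold tp
    rw [hlog]
    exact hq
  refine ⟨hlog, htp, ?_⟩
  unfold mh
  rw [hlog, htp]

private lemma log_mul_cases {a b : ℕ} (ha : 0 < a) (hb : 0 < b) :
    Nat.log 2 (a * b) = Nat.log 2 a + Nat.log 2 b ∨
      Nat.log 2 (a * b) = Nat.log 2 a + Nat.log 2 b + 1 := by
  have h1 : 2 ^ (Nat.log 2 a) ≤ a := Nat.pow_log_le_self 2 (by omega)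
  have h2 : a < 2 ^ (Nat.log 2 a + 1) := Nat.lt_pow_succ_log_self (by norm_num) a
  have h3 : 2 ^ (Nat.log 2 b) ≤ b := Nat.pow_log_le_self 2 (by omega)
  have h4 : b < 2 ^ (Nat.log 2 b + 1) := Nat.lt_pow_succ_log_self (by norm_num) b
  have h5 : 2 ^ (Nat.log 2 a + Nat.log 2 b) ≤ a * b := by
    rw [pow_add]
    exact Nat.mul_le_mul h1 h3
  have h6 : a * b < 2 ^ (Nat.log 2 a + Nat.log 2 b + 2) := by
    have : 2 ^ (Nat.log 2 a + Nat.log 2 b + 2) = 2 ^ (Nat.log 2 a + 1) * 2 ^ (Nat.log 2 b + 1) := by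
      rw [← pow_add]
      congr 1
      omega
    rw [this]
    exact Nat.mul_lt_mul'' h2 h4
  have hab : a * b ≠ 0 := (Nat.mul_pos ha hb).ne'
  have l1 : Nat.log 2 a + Nat.log 2 b ≤ Nat.log 2 (a * b) :=
    (Nat.le_log_iff_pow_le (by norm_num) hab).mpr h5
  have l2 : Nat.log 2 (a * b) < Nat.log 2 a + Nat.log 2 b + 2 :=
    (Nat.log_lt_iff_lt_pow (by norm_num) hab).mpr h6
  omega

/-- products with constant leading digits -/
lemma mh_mul {a b T : ℕ} (ha : 4 ≤ a) (hb : 4 ≤ b) (hTa : tp a = T) (hTb : tp b = T)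
    (hTab : tp (a * b) = T) : T ≠ 5 ∧ mh (a * b) = mh a + mh b := by
  have hab : 4 ≤ a * b := by nlinarith
  obtain ⟨a1, a2, a3, a4, a5, a6⟩ := tp_spec ha
  obtain ⟨b1, b2, b3, -, -, b6⟩ := tp_spec hb
  obtain ⟨c1, c2, c3, -, -, c6⟩ := tp_spec hab
  rw [hTa] at a1 a2 a4 a5
  rw [hTb] at b1 b2
  rw [hTab] at c1 c2
  have hm : T * T * (2 ^ (Nat.log 2 a - 2) * 2 ^ (Nat.log 2 b - 2)) ≤ a * b := by
    calc T * T * (2 ^ (Nat.log 2 a - 2) * 2 ^ (Nat.log 2 b - 2))
        = (T * 2 ^ (Nat.log 2 a - 2)) * (T * 2 ^ (Nat.log 2 b - 2)) := by ring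
      _ ≤ a * b := Nat.mul_le_mul a1 b1
  have hM : a * b < (T + 1) * (T + 1) * (2 ^ (Nat.log 2 a - 2) * 2 ^ (Nat.log 2 b - 2)) := by
    calc a * b < ((T + 1) * 2 ^ (Nat.log 2 a - 2)) * ((T + 1) * 2 ^ (Nat.log 2 b - 2)) :=
          Nat.mul_lt_mul'' a2 b2
      _ = (T + 1) * (T + 1) * (2 ^ (Nat.log 2 a - 2) * 2 ^ (Nat.log 2 b - 2)) := by ring
  set PQ := 2 ^ (Nat.log 2 a - 2) * 2 ^ (Nat.log 2 b - 2) with hPQ
  have hPQ0 : 0 < PQ := by positivity
  rcases log_mul_cases (a := a) (b := b) (by omega) (by omega) with hl | hl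
  · have hR : 2 ^ (Nat.log 2 (a * b) - 2) = 4 * PQ := by
      rw [hl, hPQ, ← pow_add]
      have : Nat.log 2 a + Nat.log 2 b - 2 = 2 + (Nat.log 2 a - 2 + (Nat.log 2 b - 2)) := by omega
      rw [this, pow_add]
      norm_num
    rw [hR] at c1 c2
    have hT : T = 4 := by
      by_contra hne
      have h5 : 5 ≤ T := by omega
      interval_cases T <;> omega
    refine ⟨by omega, ?_⟩
    unfold mh
    rw [hTa, hTb, hTab, hl]
    simp [hT]
  · have hR : 2 ^ (Nat.log 2 (a * b) - 2) = 8 * PQ := by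
      rw [hl, hPQ, ← pow_add]
      have : Nat.log 2 a + Nat.log 2 b + 1 - 2 = 3 + (Nat.log 2 a - 2 + (Nat.log 2 b - 2)) := by
        omega
      rw [this, pow_add]
      norm_num
    rw [hR] at c1 c2
    have hT : 6 ≤ T := by
      by_contra hne
      have h5 : T ≤ 5 := by omega
      interval_cases T <;> omega
    refine ⟨by omega, ?_⟩
    unfold mh
    rw [hTa, hTb, hTab, hl, if_pos hT]
    ring

/-- multiplication by `a` shifts the logarithm by `mh a` if the two leading digits stay -/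
lemma log_mul_of_sb {a Y : ℕ} (ha : 4 ≤ a) (hY : 0 < Y) (h5 : tp a ≠ 5) (hs : sb (a * Y) = sb Y) :
    Nat.log 2 (a * Y) = Nat.log 2 Y + mh a := by
  obtain ⟨a1, a2, a3, a4, a5, a6⟩ := tp_spec ha
  have hQ0 : 0 < 2 ^ (Nat.log 2 Y) := by positivity
  have hP0 : 0 < 2 ^ (Nat.log 2 a - 2) := by positivity
  set P := 2 ^ (Nat.log 2 a - 2) with hP
  set Q := 2 ^ (Nat.log 2 Y) with hQ
  have hYQ : sb Y * Q ≤ 2 * Y := Nat.div_mul_le_self _ _
  have hYQ2 : 2 * Y < (sb Y + 1) * Q := by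
    rw [mul_comm (sb Y + 1) Q]
    exact Nat.lt_mul_div_succ _ hQ0
  have hYl : Q ≤ Y := Nat.pow_log_le_self 2 (by omega)
  have hYu : Y < 2 * Q := by
    have := Nat.lt_pow_succ_log_self (b := 2) (by norm_num) Y
    rw [pow_succ] at this
    linarith
  have hsl : 2 ≤ sb Y := (Nat.le_div_iff_mul_le hQ0).mpr (by linarith)
  have hsu : sb Y < 4 := (Nat.div_lt_iff_lt_mul hQ0).mpr (by linarith)
  rcases log_mul_cases (a := a) (b := Y) (by omega) hY with hl | hl
  · -- no carry: tp a = 4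
    have hR : 2 ^ (Nat.log 2 (a * Y)) = 4 * P * Q := by
      rw [hl, pow_add, a3]
    have hz : sb (a * Y) * (4 * P * Q) ≤ 2 * (a * Y) := by
      have := Nat.div_mul_le_self (2 * (a * Y)) (2 ^ (Nat.log 2 (a * Y)))
      rw [hR] at this
      unfold sb
      rw [hR]
      exact this
    have hz2 : 2 * (a * Y) < (sb (a * Y) + 1) * (4 * P * Q) := by
      have hR0 : 0 < 4 * P * Q := by positivity
      have := Nat.lt_mul_div_succ (2 * (a * Y)) hR0
      unfold sb
      rw [hR]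
      linarith
    have haY : a * Y < 8 * P * Q := by
      have := Nat.lt_pow_succ_log_self (b := 2) (by norm_num) (a * Y)
      rw [pow_succ, hR] at this
      linarith
    have h4 : tp a = 4 := by
      by_contra hne
      have h6 : 6 ≤ tp a := by omega
      have h6a : 6 * P ≤ a := le_trans (Nat.mul_le_mul_right _ h6) a1
      -- Y < 4/3 Q, so sb Y = 2; but sb (aY) ≥ 3
      have hs3 : 3 ≤ sb (a * Y) := by
        by_contra hcon
        have h2' : sb (a * Y) + 1 ≤ 3 := by omega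
        have : 2 * (a * Y) < 3 * (4 * P * Q) := lt_of_lt_of_le hz2 (Nat.mul_le_mul_right _ h2')
        have h7 : 6 * P * Q ≤ a * Y := by
          calc 6 * P * Q ≤ a * Q := Nat.mul_le_mul_right _ h6a
            _ ≤ a * Y := Nat.mul_le_mul_left _ hYl
        nlinarith
      rw [hs] at hs3
      have h8 : 3 * Q ≤ 2 * Y := le_trans (Nat.mul_le_mul_right _ hs3) hYQ
      have h9 : 6 * P * (3 * Q) ≤ a * (2 * Y) := Nat.mul_le_mul h6a h8
      nlinarith [Nat.mul_pos hP0 hQ0]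
    unfold mh
    rw [h4, hl]
    simp
    ring
  · -- carry: tp a ≥ 6
    have hR : 2 ^ (Nat.log 2 (a * Y)) = 8 * P * Q := by
      rw [hl, pow_succ, pow_add, a3]
      ring
    have hz2 : 2 * (a * Y) < (sb (a * Y) + 1) * (8 * P * Q) := by
      have hR0 : 0 < 8 * P * Q := by positivity
      have := Nat.lt_mul_div_succ (2 * (a * Y)) hR0
      unfold sb
      rw [hR]
      linarith
    have hz : sb (a * Y) * (8 * P * Q) ≤ 2 * (a * Y) := by
      have := Nat.div_mul_le_self (2 * (a * Y)) (2 ^ (Nat.log 2 (a * Y)))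
      rw [hR] at this
      unfold sb
      rw [hR]
      exact this
    have hge : 8 * P * Q ≤ a * Y := by
      have := Nat.pow_log_le_self 2 (x := a * Y) (by positivity)
      rw [hR] at this
      exact this
    have h6 : 6 ≤ tp a := by
      by_contra hne
      have h4 : tp a = 4 := by omega
      rw [h4] at a2
      -- a < 5 P, so 8 Q < 5 Y: sb Y = 3; a Y < 10 P Q: sb (aY) = 2
      have hs2 : sb (a * Y) ≤ 2 := by
        by_contra hcon
        have h3' : 3 ≤ sb (a * Y) := by omega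
        have h10 : 3 * (8 * P * Q) ≤ 2 * (a * Y) := le_trans (Nat.mul_le_mul_right _ h3') hz
        have h11 : a * Y < (4 + 1) * P * (2 * Q) := Nat.mul_lt_mul'' a2 hYu
        nlinarith
      rw [hs] at hs2
      have h12 : 2 * Y < 3 * Q := lt_of_lt_of_le hYQ2 (Nat.mul_le_mul_right _ (by omega))
      have h13 : a * (2 * Y) < (4 + 1) * P * (3 * Q) := Nat.mul_lt_mul'' a2 h12
      nlinarith [Nat.mul_pos hP0 hQ0]
    unfold mh
    rw [if_pos h6, hl]
    ring

/-! ### smooth parts -/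

lemma sm_pos (K n : ℕ) : 0 < sm K n := by
  unfold sm
  exact Finset.prod_pos (fun p hp => pow_pos (Finset.mem_filter.mp hp).2.pos _)

lemma sm_mul (K : ℕ) {a b : ℕ} (ha : a ≠ 0) (hb : b ≠ 0) : sm K (a * b) = sm K a * sm K b := by
  unfold sm
  rw [← Finset.prod_mul_distrib]
  refine Finset.prod_congr rfl (fun p _ => ?_)
  rw [Nat.factorization_mul ha hb, Finsupp.add_apply, pow_add]

lemma sm_self {K a : ℕ} (ha : a ≠ 0) (haK : a ≤ K) : sm K a = a := by
  unfold sm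
  conv_rhs => rw [← Nat.prod_factorization_pow_eq_self ha]
  rw [Finsupp.prod, Nat.support_factorization]
  symm
  refine Finset.prod_subset (fun p hp => ?_) (fun p _ hp => ?_)
  · rw [Finset.mem_filter, Finset.mem_range]
    exact ⟨by have := Nat.le_of_mem_primeFactors hp; omega, Nat.prime_of_mem_primeFactors hp⟩
  · have : a.factorization p = 0 := by
      rw [← Finsupp.notMem_support_iff, Nat.support_factorization]
      exact hp
    rw [this, pow_zero]

lemma fact_zero {K p : ℕ} (hp : p.Prime) (hpK : p ≤ K) (q : ℕ) :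
    (K.factorial * q + 1).factorization p = 0 := by
  refine Nat.factorization_eq_zero_of_not_dvd (fun h => ?_)
  have h1 : p ∣ K.factorial * q := Dvd.dvd.mul_right ((Nat.Prime.dvd_factorial hp).mpr hpK) q
  have h2 : p ∣ 1 := (Nat.dvd_add_right h1).mp h
  exact hp.one_lt.ne' (Nat.dvd_one.mp h2)

lemma sm_fact (K q : ℕ) : sm K (K.factorial * q + 1) = 1 := by
  unfold sm
  refine Finset.prod_eq_one (fun p hp => ?_)
  obtain ⟨h1, h2⟩ := Finset.mem_filter.mp hp
  rw [fact_zero h2 (by have := Finset.mem_range.mp h1; omega), pow_zero]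

lemma v2_mul {a b : ℕ} (ha : a ≠ 0) (hb : b ≠ 0) : v2 (a * b) = v2 a + v2 b := by
  unfold v2
  rw [Nat.factorization_mul ha hb, Finsupp.add_apply]

lemma v2_fact {K : ℕ} (hK : 2 ≤ K) {b : ℕ} (hb : b ≠ 0) (q : ℕ) :
    v2 (b * (K.factorial * q + 1)) = v2 b := by
  rw [v2_mul hb (by omega)]
  unfold v2
  rw [fact_zero Nat.prime_two hK, add_zero]

lemma le_v2 {n t : ℕ} (hn : n ≠ 0) (h : 2 ^ t ∣ n) : t ≤ v2 n :=
  (Nat.Prime.pow_dvd_iff_le_factorization Nat.prime_two hn).mp h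

lemma v2_lt {n t : ℕ} (hn : n ≠ 0) (h : n < 2 ^ t) : v2 n < t := by
  by_contra hcon
  have h1 : 2 ^ t ∣ n :=
    (Nat.Prime.pow_dvd_iff_le_factorization Nat.prime_two hn).mpr (by unfold v2 at hcon; omega)
  exact absurd (Nat.le_of_dvd (Nat.pos_of_ne_zero hn) h1) (by omega)

/-- decomposition into a power of 2 and an odd number -/
lemma v2_decomp {n : ℕ} (hn : n ≠ 0) : ∃ k, n = 2 ^ v2 n * (2 * k + 1) := by
  have h1 : n = 2 ^ v2 n * (n / 2 ^ v2 n) := (Nat.ordProj_mul_ordCompl_eq_self n 2).symm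
  have h2 : ¬ 2 ∣ n / 2 ^ v2 n := Nat.not_dvd_ordCompl Nat.prime_two hn
  obtain ⟨k, hk⟩ : ∃ k, n / 2 ^ v2 n = 2 * k + 1 := ⟨(n / 2 ^ v2 n) / 2, by omega⟩
  exact ⟨k, by rw [← hk]; exact h1⟩

lemma v2_eq {n v k : ℕ} (h : n = 2 ^ v * (2 * k + 1)) : v2 n = v := by
  subst h
  rw [v2_mul (by positivity) (by omega)]
  have h1 : v2 (2 ^ v) = v := by
    unfold v2
    rw [Nat.Prime.factorization_pow Nat.prime_two, Finsupp.single_eq_same]
  have h2 : v2 (2 * k + 1) = 0 := by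
    unfold v2
    exact Nat.factorization_eq_zero_of_not_dvd (by omega)
  omega

/-- the digit at the place `v2 m` changes when `m` is added -/
lemma digit_flip (x m : ℕ) (hm : m ≠ 0) :
    ((x + m) / 2 ^ v2 m) % 2 ≠ (x / 2 ^ v2 m) % 2 := by
  obtain ⟨k, hk⟩ := v2_decomp hm
  have h0 : 0 < 2 ^ v2 m := by positivity
  have : (x + m) / 2 ^ v2 m = x / 2 ^ v2 m + (2 * k + 1) := by
    conv_lhs => rw [show x + m = x + 2 ^ v2 m * (2 * k + 1) by rw [← hk]]
    rw [Nat.add_mul_div_left _ _ h0]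
  rw [this]
  omega

lemma v2_add_of_lt {x y : ℕ} (hx : x ≠ 0) (hy : y ≠ 0) (h : v2 x < v2 y) : v2 (x + y) = v2 x := by
  obtain ⟨k, hk⟩ := v2_decomp hx
  obtain ⟨l, hl⟩ := v2_decomp hy
  have hp : 2 ^ v2 y = 2 ^ v2 x * (2 * 2 ^ (v2 y - v2 x - 1)) := by
    rw [← pow_succ', ← pow_add]
    congr 1
    omega
  refine v2_eq (k := k + 2 ^ (v2 y - v2 x - 1) * (2 * l + 1)) ?_
  calc x + y = 2 ^ v2 x * (2 * k + 1) + 2 ^ v2 y * (2 * l + 1) := by rw [← hk, ← hl]
    _ = 2 ^ v2 x * (2 * (k + 2 ^ (v2 y - v2 x - 1) * (2 * l + 1)) + 1) := by rw [hp]; ring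

end Pool.Agent.Helper2.SPF
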