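import Pool.Agent.Helper2.SPF.Zero

/-!
# MP_ecaebc_co: sums and products, profinite fibres.  Part 3: the other fibres.
-/

set_option autoImplicit false

namespace Pool.Agent.Helper2.SPF

/-- three colours suffice to separate `x` and `σ x` -/
lemma three_col {X : Type} [Fintype X] [DecidableEq X] (σ : Equiv.Perm X) :
    ∃ χ : X → Fin 3, ∀ x, σ x ≠ x → χ (σ x) ≠ χ x := by
  have key : ∀ s : Finset X, ∃ χ : X → Fin 3, ∀ x ∈ s, σ x ∈ s → σ x ≠ x → χ (σ x) ≠ χ x := by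
    intro s
    induction s using Finset.induction_on with
    | empty => exact ⟨fun _ => 0, fun x hx => absurd hx (Finset.notMem_empty x)⟩
    | insert a s ha ih =>
      obtain ⟨χ, hχ⟩ := ih
      have hex : ∀ u v : Fin 3, ∃ c : Fin 3, c ≠ u ∧ c ≠ v := by decide
      obtain ⟨c, hc1, hc2⟩ := hex (χ (σ a)) (χ (σ.symm a))
      refine ⟨Function.update χ a c, fun x hx hσx hne => ?_⟩
      by_cases hxa : x = a
      · subst hxa
        rw [Function.update_self, Function.update_of_ne hne]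
        exact hc1.symm
      · have hxs : x ∈ s := (Finset.mem_insert.mp hx).resolve_left hxa
        by_cases hσa : σ x = a
        · have : σ.symm a = x := by rw [← hσa, Equiv.symm_apply_apply]
          rw [hσa, Function.update_self, Function.update_of_ne hxa]
          rw [this] at hc2
          exact hc2
        · have hσs : σ x ∈ s := (Finset.mem_insert.mp hσx).resolve_left hσa
          rw [Function.update_of_ne hσa, Function.update_of_ne hxa]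
          exact hχ x hxs hσs hne
  obtain ⟨χ, hχ⟩ := key Finset.univ
  exact ⟨χ, fun x => hχ x (Finset.mem_univ _) (Finset.mem_univ _)⟩

open Classical in
/-- the `p`-adic valuation of `n - γ` -/
noncomputable def Nn (p : ℕ) (γ : ℕ → ℤ) (n : ℕ) : ℕ :=
  if h : ∃ i : ℕ, ¬ (p : ℤ) ^ (i + 1) ∣ (n : ℤ) - γ (i + 1) then Nat.find h else 0

/-- the leading `p`-adic digit of `n - γ` -/
noncomputable def ld (p : ℕ) (γ : ℕ → ℤ) (n : ℕ) : ZMod p :=
  ((((n : ℤ) - γ (Nn p γ n + 1)) / (p : ℤ) ^ (Nn p γ n) : ℤ) : ZMod p)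

lemma Nn_ld {p : ℕ} (hp : p.Prime) (γ : ℕ → ℤ) (n N : ℕ) (l : ℤ)
    (h1 : ∀ i, i ≤ N → (p : ℤ) ^ i ∣ (n : ℤ) - γ i)
    (h2 : (p : ℤ) ^ (N + 1) ∣ ((n : ℤ) - γ (N + 1)) - (p : ℤ) ^ N * l) (h3 : ¬ (p : ℤ) ∣ l) :
    Nn p γ n = N ∧ ld p γ n = (l : ZMod p) := by
  have hp0 : (p : ℤ) ≠ 0 := by exact_mod_cast hp.ne_zero
  have hpN : (p : ℤ) ^ N ≠ 0 := pow_ne_zero _ hp0
  have hnot : ¬ (p : ℤ) ^ (N + 1) ∣ (n : ℤ) - γ (N + 1) := by
    intro h
    have h4 : (p : ℤ) ^ (N + 1) ∣ (p : ℤ) ^ N * l := by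
      have := dvd_sub h h2
      rwa [sub_sub_cancel] at this
    rw [pow_succ] at h4
    exact h3 (Int.dvd_of_mul_dvd_mul_left hpN h4)
  have hex : ∃ i : ℕ, ¬ (p : ℤ) ^ (i + 1) ∣ (n : ℤ) - γ (i + 1) := ⟨N, hnot⟩
  have hN : Nn p γ n = N := by
    unfold Nn
    rw [dif_pos hex, Nat.find_eq_iff]
    exact ⟨hnot, fun m hm => not_not.mpr (h1 (m + 1) hm)⟩
  refine ⟨hN, ?_⟩
  unfold ld
  rw [hN]
  obtain ⟨r, hr⟩ := h2
  have : (n : ℤ) - γ (N + 1) = (p : ℤ) ^ N * (l + p * r) := by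
    rw [pow_succ] at hr
    linarith
  rw [this, Int.mul_ediv_cancel_left _ hpN]
  push_cast
  simp

/-- the valuation and the leading digit of `a - α` for a residue family -/
lemma lead_val {p : ℕ} (hp : p.Prime) (f : ℕ → ℤ)
    (hcoh : ∀ i j, i ≤ j → (p : ℤ) ^ i ∣ f j - f i) (x : ℤ)
    (hx : ∃ i, ¬ (p : ℤ) ^ i ∣ x - f i) : ∃ (N : ℕ) (l : ℤ), ¬ (p : ℤ) ∣ l ∧
      (∀ i, i ≤ N → (p : ℤ) ^ i ∣ x - f i) ∧
      ∀ i, N + 1 ≤ i → (p : ℤ) ^ (N + 1) ∣ x - f i - (p : ℤ) ^ N * l := by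
  classical
  have hp0 : (p : ℤ) ≠ 0 := by exact_mod_cast hp.ne_zero
  set i0 := Nat.find hx with hi0
  have h1 : ¬ (p : ℤ) ^ i0 ∣ x - f i0 := Nat.find_spec hx
  have h2 : ∀ j, j < i0 → (p : ℤ) ^ j ∣ x - f j := fun j hj =>
    not_not.mp (Nat.find_min hx hj)
  have hpos : 1 ≤ i0 := by
    by_contra hcon
    have h0 : i0 = 0 := by omega
    rw [h0] at h1
    exact h1 (by simp)
  obtain ⟨N, hN⟩ : ∃ N, i0 = N + 1 := ⟨i0 - 1, by omega⟩
  rw [hN] at h1 h2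
  have hdN : (p : ℤ) ^ N ∣ x - f (N + 1) := by
    have e : x - f (N + 1) = (x - f N) - (f (N + 1) - f N) := by ring
    rw [e]
    exact dvd_sub (h2 N (by omega)) (hcoh N (N + 1) (by omega))
  obtain ⟨l, hl⟩ := hdN
  refine ⟨N, l, ?_, fun i hi => h2 i (by omega), fun i hi => ?_⟩
  · intro hpl
    obtain ⟨r, hr⟩ := hpl
    exact h1 ⟨r, by rw [hl, hr, pow_succ]; ring⟩
  · have e : x - f i - (p : ℤ) ^ N * l = -(f i - f (N + 1)) := by
      rw [← hl]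
      ring
    rw [e]
    exact (dvd_neg).mpr (hcoh (N + 1) i hi)

lemma pow_min_dvd {p : ℤ} {x : ℤ} {i N : ℕ} (h1 : i ≤ N → p ^ i ∣ x)
    (h2 : N + 1 ≤ i → p ^ N ∣ x) : p ^ (min i N) ∣ x := by
  by_cases h : i ≤ N
  · rw [min_eq_left h]
    exact h1 h
  · rw [min_eq_right (by omega)]
    exact h2 (by omega)

/-- the fibres over nonzero pairs -/
theorem nonzero_fibre {p : ℕ} (hp : p.Prime) (f g : ℕ → ℤ)
    (hf : ∀ i j, i ≤ j → (p : ℤ) ^ i ∣ f j - f i) (hg : ∀ i j, i ≤ j → (p : ℤ) ^ i ∣ g j - g i)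
    (hfgi : ∀ i, (p : ℤ) ^ i ∣ f i + g i - f i * g i)
    (hgp : ∃ i, ¬ (p : ℤ) ^ i ∣ g i) :
    ∃ c : ℕ → ℕ, (∀ n, c n < 3) ∧ ∀ A B : Set ℕ, (∃ a ∈ A, ∃ i, ¬ (p : ℤ) ^ i ∣ (a : ℤ) - f i) →
      (∀ i, ∃ b ∈ B, (p : ℤ) ^ i ∣ (b : ℤ) - g i) →
      ¬ ∃ k, ∀ a ∈ A, ∀ b ∈ B, c (a + b) = k ∧ c (a * b) = k := by
  have : Fact p.Prime := ⟨hp⟩
  have hp0 : (p : ℤ) ≠ 0 := by exact_mod_cast hp.ne_zero
  have hgp' : ∃ i, ¬ (p : ℤ) ^ i ∣ 0 - g i := by
    obtain ⟨i, hi⟩ := hgp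
    exact ⟨i, fun h => hi (by rw [zero_sub] at h; exact (dvd_neg).mp h)⟩
  obtain ⟨k, b0', hb0', hk1, hk2⟩ := lead_val hp g hg 0 hgp'
  set b0 : ℤ := -b0' with hb0def
  have hb0 : ¬ (p : ℤ) ∣ b0 := fun h => hb0' ((dvd_neg).mp h)
  have hg1 : ∀ i, i ≤ k → (p : ℤ) ^ i ∣ g i := fun i hi => by
    have := hk1 i hi
    rw [zero_sub] at this
    exact (dvd_neg).mp this
  have hg2 : ∀ i, k + 1 ≤ i → (p : ℤ) ^ (k + 1) ∣ g i - (p : ℤ) ^ k * b0 := fun i hi => by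
    have := hk2 i hi
    have e : g i - (p : ℤ) ^ k * b0 = -(0 - g i - (p : ℤ) ^ k * b0') := by
      rw [hb0def]
      ring
    rw [e]
    exact (dvd_neg).mpr this
  have hbz : ((b0 : ℤ) : ZMod p) ≠ 0 := fun h => hb0 ((ZMod.intCast_zmod_eq_zero_iff_dvd _ _).mp h)
  obtain ⟨χ, hχ⟩ := three_col (Equiv.mulLeft₀ ((b0 : ℤ) : ZMod p) hbz)
  let γ : ℕ → ℤ := fun i => f i + g i
  refine ⟨fun n => if k = 0 then (χ (ld p γ n)).val else (Nn p γ n / k) % 2, ?_, ?_⟩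
  · intro n
    have := (χ (ld p γ n)).isLt
    show (if k = 0 then (χ (ld p γ n)).val else (Nn p γ n / k) % 2) < 3
    split_ifs <;> omega
  intro A B hA hB
  rintro ⟨kk, hmono⟩
  obtain ⟨a, ha, hai⟩ := hA
  obtain ⟨N, l, hl, hN1, hN2⟩ := lead_val hp f hf (a : ℤ) hai
  obtain ⟨b, hb, hbd⟩ := hB (N + k + 1)
  have hbi : ∀ i, i ≤ N + k + 1 → (p : ℤ) ^ i ∣ (b : ℤ) - g i := by
    intro i hi
    have h1 := hg i (N + k + 1) hi
    have e : (b : ℤ) - g i = ((b : ℤ) - g (N + k + 1)) +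
        (g (N + k + 1) - g i) := by ring
    rw [e]
    exact dvd_add ((pow_dvd_pow (p : ℤ) hi).trans hbd) h1
  -- the sum
  have hsum := Nn_ld hp γ (a + b) N l (by
    intro i hi
    have e : ((a + b : ℕ) : ℤ) - γ i = ((a : ℤ) - f i) + ((b : ℤ) - g i) := by
      show ((a + b : ℕ) : ℤ) - (f i + g i) = _
      push_cast
      ring
    rw [e]
    exact dvd_add (hN1 i hi) (hbi i (by omega))) (by
    have e : (((a + b : ℕ) : ℤ) - γ (N + 1)) - (p : ℤ) ^ N * l =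
        ((a : ℤ) - f (N + 1) - (p : ℤ) ^ N * l) + ((b : ℤ) - g (N + 1)) := by
      show (((a + b : ℕ) : ℤ) - (f (N + 1) + g (N + 1))) - (p : ℤ) ^ N * l = _
      push_cast
      ring
    rw [e]
    exact dvd_add (hN2 (N + 1) le_rfl) (hbi (N + 1) (by omega))) hl
  -- the product
  have hlb : ¬ (p : ℤ) ∣ l * b0 := by
    intro h
    rcases (Nat.prime_iff_prime_int.mp hp).dvd_or_dvd h with h | h
    · exact hl h
    · exact hb0 h
  have hNle : ∀ i, N + 1 ≤ i → (p : ℤ) ^ N ∣ (a : ℤ) - f i := fun i hi => by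
    have h1 : (p : ℤ) ^ N ∣ (a : ℤ) - f i - (p : ℤ) ^ N * l :=
      (pow_dvd_pow (p : ℤ) (by omega)).trans (hN2 i hi)
    have := dvd_add h1 (Dvd.intro l rfl : (p : ℤ) ^ N ∣ (p : ℤ) ^ N * l)
    rwa [sub_add_cancel] at this
  have hkle : ∀ i, k + 1 ≤ i → (p : ℤ) ^ k ∣ g i := fun i hi => by
    have h1 : (p : ℤ) ^ k ∣ g i - (p : ℤ) ^ k * b0 :=
      (pow_dvd_pow (p : ℤ) (by omega)).trans (hg2 i hi)
    have := dvd_add h1 (Dvd.intro b0 rfl : (p : ℤ) ^ k ∣ (p : ℤ) ^ k * b0)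
    rwa [sub_add_cancel] at this
  have hprod := Nn_ld hp γ (a * b) (N + k) (l * b0) (by
    intro i hi
    have e : ((a * b : ℕ) : ℤ) - γ i = (a : ℤ) * ((b : ℤ) - g i) +
        ((a : ℤ) - f i) * g i -
        (f i + g i - f i * g i) := by
      show ((a * b : ℕ) : ℤ) - (f i + g i) = _
      push_cast
      ring
    rw [e]
    refine dvd_sub (dvd_add (Dvd.dvd.mul_left (hbi i (by omega)) _) ?_) (hfgi i)
    have h1 : (p : ℤ) ^ (min i N) ∣ (a : ℤ) - f i := pow_min_dvd (hN1 i) (hNle i)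
    have h2 : (p : ℤ) ^ (min i k) ∣ g i := pow_min_dvd (hg1 i) (hkle i)
    have h3 := mul_dvd_mul h1 h2
    rw [← pow_add] at h3
    exact (pow_dvd_pow (p : ℤ) (by omega)).trans h3) (by
    obtain ⟨x, hx⟩ := hN2 (N + k + 1) (by omega)
    obtain ⟨y, hy⟩ := hg2 (N + k + 1) (by omega)
    have hx' : (a : ℤ) - f (N + k + 1) = (p : ℤ) ^ N * l + (p : ℤ) ^ (N + 1) * x := by
      linarith
    have hy' : g (N + k + 1) = (p : ℤ) ^ k * b0 + (p : ℤ) ^ (k + 1) * y := by linarith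
    have e : (((a * b : ℕ) : ℤ) - γ (N + k + 1)) - (p : ℤ) ^ (N + k) * (l * b0) =
        (a : ℤ) * ((b : ℤ) - g (N + k + 1)) -
        (f (N + k + 1) + g (N + k + 1) - f (N + k + 1) * g (N + k + 1)) +
        (((a : ℤ) - f (N + k + 1)) * g (N + k + 1) - (p : ℤ) ^ (N + k) * (l * b0)) := by
      show (((a * b : ℕ) : ℤ) - (f (N + k + 1) + g (N + k + 1))) - _ = _
      push_cast
      ring
    rw [e]
    refine dvd_add (dvd_sub (Dvd.dvd.mul_left (hbi _ le_rfl) _) (hfgi _)) ?_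
    rw [hx', hy']
    refine ⟨l * y + x * b0 + p * x * y, ?_⟩
    ring) hlb
  have hcol := (hmono a ha b hb).1.trans (hmono a ha b hb).2.symm
  change (if k = 0 then (χ (ld p γ (a + b))).val else (Nn p γ (a + b) / k) % 2) =
    (if k = 0 then (χ (ld p γ (a * b))).val else (Nn p γ (a * b) / k) % 2) at hcol
  rw [hsum.1, hsum.2, hprod.1, hprod.2] at hcol
  by_cases hk0 : k = 0
  · rw [if_pos hk0, if_pos hk0] at hcol
    have hne : (Equiv.mulLeft₀ ((b0 : ℤ) : ZMod p) hbz) ((l : ℤ) : ZMod p) ≠ ((l : ℤ) : ZMod p) := by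
      intro h
      have hlz : ((l : ℤ) : ZMod p) ≠ 0 := fun h' =>
        hl ((ZMod.intCast_zmod_eq_zero_iff_dvd _ _).mp h')
      have h1 : ((b0 : ℤ) : ZMod p) * ((l : ℤ) : ZMod p) = 1 * ((l : ℤ) : ZMod p) := by
        rw [one_mul]
        exact h
      have h2 : ((b0 : ℤ) : ZMod p) = 1 := mul_right_cancel₀ hlz h1
      have h3 : (p : ℤ) ∣ g 1 - b0 := by
        have := hg2 1 (by omega)
        rw [hk0] at this
        simpa using this
      have h4 : ((g 1 : ℤ) : ZMod p) = 1 := by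
        rw [← h2]
        have h5 := (ZMod.intCast_zmod_eq_zero_iff_dvd (g 1 - b0) p).mpr h3
        rw [Int.cast_sub] at h5
        exact sub_eq_zero.mp h5
      have h6 : (((f 1 + g 1 - f 1 * g 1 : ℤ)) : ZMod p) = 0 := by
        rw [ZMod.intCast_zmod_eq_zero_iff_dvd]
        have := hfgi 1
        rwa [pow_one] at this
      push_cast at h6
      have h7 : ((g 1 : ℤ) : ZMod p) = 1 := h4
      rw [h7] at h6
      have h8 : (1 : ZMod p) = 0 := by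
        rw [← h6]
        ring
      exact one_ne_zero h8
    have := hχ _ hne
    apply this
    apply Fin.ext
    have e : (Equiv.mulLeft₀ ((b0 : ℤ) : ZMod p) hbz) ((l : ℤ) : ZMod p) =
        ((l * b0 : ℤ) : ZMod p) := by
      show ((b0 : ℤ) : ZMod p) * ((l : ℤ) : ZMod p) = _
      push_cast
      ring
    rw [e]
    exact hcol.symm
  · rw [if_neg hk0, if_neg hk0, Nat.add_div_right _ (Nat.pos_of_ne_zero hk0)] at hcol
    omega


end Pool.Agent.Helper2.SPF
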