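import Pool.Agent.Helper2.SPF.Fibre

/-!
# MP_ecaebc_co: sums and products, profinite fibres.  Part 4: a nonzero `p`-adic limit.
-/

set_option autoImplicit false

namespace Pool.Agent.Helper2.SPF

open Filter Topology

lemma padic_dvd_iff {p : ℕ} [Fact p.Prime] (x : ℤ_[p]) (i : ℕ) (z : ℤ) :
    (p : ℤ) ^ i ∣ z - (x.appr i : ℤ) ↔ (p : ℤ_[p]) ^ i ∣ (z : ℤ_[p]) - x := by
  have h1 : (p : ℤ_[p]) ^ i ∣ x - (x.appr i : ℤ_[p]) :=
    Ideal.mem_span_singleton.mp (PadicInt.appr_spec i x)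
  rw [← PadicInt.pow_p_dvd_int_iff]
  push_cast
  constructor
  · intro h
    have := dvd_sub h h1
    have e : (z : ℤ_[p]) - (x.appr i : ℤ_[p]) - (x - (x.appr i : ℤ_[p])) = (z : ℤ_[p]) - x := by ring
    rwa [e] at this
  · intro h
    have := dvd_add h h1
    have e : (z : ℤ_[p]) - x + (x - (x.appr i : ℤ_[p])) = (z : ℤ_[p]) - (x.appr i : ℤ_[p]) := by ring
    rwa [e] at this

lemma padic_ne_zero {p : ℕ} [Fact p.Prime] (x : ℤ_[p]) (hx : x ≠ 0) :
    ∃ i : ℕ, ¬ (p : ℤ_[p]) ^ i ∣ x := by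
  refine ⟨x.valuation + 1, fun h => ?_⟩
  have := (PadicInt.mem_span_pow_iff_le_valuation x hx (x.valuation + 1)).mp
    (Ideal.mem_span_singleton.mpr h)
  omega

lemma padic_close {p : ℕ} [Fact p.Prime] {B : Set ℕ} {β : ℤ_[p]}
    (hB : β ∈ closure ((fun n : ℕ => (n : ℤ_[p])) '' B)) (i : ℕ) :
    ∃ b ∈ B, (p : ℤ_[p]) ^ i ∣ (b : ℤ_[p]) - β := by
  have hpos : (0 : ℝ) < (p : ℝ) ^ (-(i : ℤ)) := by
    have : (0 : ℝ) < p := by exact_mod_cast (Fact.out : p.Prime).pos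
    positivity
  obtain ⟨y, ⟨b, hb, rfl⟩, hy⟩ := Metric.mem_closure_iff.mp hB _ hpos
  refine ⟨b, hb, ?_⟩
  rw [← Ideal.mem_span_singleton, ← PadicInt.norm_le_pow_iff_mem_span_pow]
  rw [dist_comm, dist_eq_norm] at hy
  exact hy.le

theorem padic_fibre (p : ℕ) [Fact p.Prime] (β : ℤ_[p]) (hβ : β ≠ 0) :
    ∃ c : ℕ → Fin 3, ∀ A B : Set ℕ, A.Nontrivial →
      β ∈ closure ((fun n : ℕ => (n : ℤ_[p])) '' B) →
      ¬ ∃ k, ∀ a ∈ A, ∀ b ∈ B, c (a + b) = k ∧ c (a * b) = k := by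
  have hp : p.Prime := Fact.out
  by_cases hu : IsUnit (β - 1)
  · obtain ⟨u, hu⟩ := hu
    -- the corresponding limit of `A`
    let α : ℤ_[p] := β * (u⁻¹ : ℤ_[p]ˣ)
    have hα : α * (β - 1) = β := by
      show β * (u⁻¹ : ℤ_[p]ˣ) * (β - 1) = β
      rw [← hu, mul_assoc, Units.inv_mul, mul_one]
    have hab : α + β = α * β := by linear_combination (-1 : ℤ_[p]) * hα
    have hcoh : ∀ x : ℤ_[p], ∀ i j, i ≤ j → (p : ℤ) ^ i ∣ (x.appr j : ℤ) - (x.appr i : ℤ) := by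
      intro x i j hij
      rw [padic_dvd_iff]
      have h1 : (p : ℤ_[p]) ^ j ∣ x - (x.appr j : ℤ_[p]) :=
        Ideal.mem_span_singleton.mp (PadicInt.appr_spec j x)
      have h2 := (dvd_neg).mpr ((pow_dvd_pow (p : ℤ_[p]) hij).trans h1)
      rw [neg_sub] at h2
      push_cast
      exact h2
    obtain ⟨c, hc, h⟩ := nonzero_fibre hp (fun i => (α.appr i : ℤ)) (fun i => (β.appr i : ℤ))
      (hcoh α) (hcoh β) (by
        intro i
        rw [← PadicInt.pow_p_dvd_int_iff]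
        have h1 : (p : ℤ_[p]) ^ i ∣ α - (α.appr i : ℤ_[p]) :=
          Ideal.mem_span_singleton.mp (PadicInt.appr_spec i α)
        have h2 : (p : ℤ_[p]) ^ i ∣ β - (β.appr i : ℤ_[p]) :=
          Ideal.mem_span_singleton.mp (PadicInt.appr_spec i β)
        push_cast
        have e : (α.appr i : ℤ_[p]) + (β.appr i : ℤ_[p]) - (α.appr i : ℤ_[p]) * (β.appr i : ℤ_[p]) =
            (α - (α.appr i : ℤ_[p])) * ((β.appr i : ℤ_[p]) - 1) +
            (β - (β.appr i : ℤ_[p])) * (α - 1) := by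
          linear_combination hab
        rw [e]
        exact dvd_add (Dvd.dvd.mul_right h1 _) (Dvd.dvd.mul_right h2 _)) (by
        obtain ⟨i, hi⟩ := padic_ne_zero β hβ
        refine ⟨i, fun h => hi ?_⟩
        have h1 : (p : ℤ) ^ i ∣ 0 - (β.appr i : ℤ) := by
          rw [zero_sub]
          exact (dvd_neg).mpr h
        rw [padic_dvd_iff] at h1
        push_cast at h1
        rw [zero_sub] at h1
        exact (dvd_neg).mp h1)
    refine ⟨fun n => ⟨c n, hc n⟩, fun A B hA hB => ?_⟩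
    rintro ⟨k, hk⟩
    refine h A B ?_ ?_ ⟨k.val, fun a ha b hb =>
      ⟨congrArg Fin.val (hk a ha b hb).1, congrArg Fin.val (hk a ha b hb).2⟩⟩
    · obtain ⟨a1, ha1, a2, ha2, hne⟩ := hA
      have hex : ∃ a ∈ A, (a : ℤ_[p]) - α ≠ 0 := by
        by_contra hcon
        push Not at hcon
        have h1 : (a1 : ℤ_[p]) = a2 :=
          (sub_eq_zero.mp (hcon a1 ha1)).trans (sub_eq_zero.mp (hcon a2 ha2)).symm
        exact hne (by exact_mod_cast h1)
      obtain ⟨a, ha, hane⟩ := hex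
      obtain ⟨i, hi⟩ := padic_ne_zero _ hane
      refine ⟨a, ha, i, fun h1 => hi ?_⟩
      rw [padic_dvd_iff] at h1
      push_cast at h1
      exact h1
    · intro i
      obtain ⟨b, hb, hbd⟩ := padic_close hB i
      refine ⟨b, hb, ?_⟩
      show (p : ℤ) ^ i ∣ (b : ℤ) - (β.appr i : ℤ)
      rw [padic_dvd_iff]
      push_cast
      exact hbd
  · -- `β` is `1` modulo `p`
    obtain ⟨χ, hχ⟩ := three_col (Equiv.addRight (1 : ZMod p))
    refine ⟨fun n => χ ((n : ℕ) : ZMod p), fun A B hA hB => ?_⟩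
    rintro ⟨k, hk⟩
    obtain ⟨a, ha, -, -, -⟩ := hA
    obtain ⟨b, hb, hbd⟩ := padic_close hB 1
    have hb1 : (p : ℤ_[p]) ∣ (b : ℤ_[p]) - 1 := by
      have h1 : (p : ℤ_[p]) ∣ β - 1 := by
        rw [← PadicInt.norm_lt_one_iff_dvd, ← PadicInt.mem_nonunits]
        exact hu
      rw [pow_one] at hbd
      have := dvd_add hbd h1
      rwa [sub_add_sub_cancel] at this
    have hb2 : (p : ℤ) ∣ (b : ℤ) - 1 := by
      have := (PadicInt.pow_p_dvd_int_iff (p := p) 1 ((b : ℤ) - 1)).mp (by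
        rw [pow_one]
        push_cast
        exact hb1)
      rwa [pow_one] at this
    have hb3 : ((b : ℕ) : ZMod p) = 1 := by
      have h1 := (ZMod.intCast_zmod_eq_zero_iff_dvd _ p).mpr hb2
      push_cast at h1
      exact sub_eq_zero.mp h1
    have hcol := (hk a ha b hb).1.trans (hk a ha b hb).2.symm
    have e : (Equiv.addRight (1 : ZMod p)) (((a * b : ℕ)) : ZMod p) = (((a + b : ℕ)) : ZMod p) := by
      show (((a * b : ℕ)) : ZMod p) + 1 = _
      push_cast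
      rw [hb3]
      ring
    have hne : (Equiv.addRight (1 : ZMod p)) (((a * b : ℕ)) : ZMod p) ≠ (((a * b : ℕ)) : ZMod p) := by
      intro h
      have h1 : (((a * b : ℕ)) : ZMod p) + 1 = (((a * b : ℕ)) : ZMod p) := h
      exact one_ne_zero (add_eq_left.mp h1)
    have := hχ _ hne
    rw [e] at this
    exact this hcol

end Pool.Agent.Helper2.SPF
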