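import Pool.Agent.Helper2.SPF.Basic

/-!
# MP_ecaebc_co: sums and products, profinite fibres.  Part 2: the fibre over (0, 0).
-/

set_option autoImplicit false

namespace Pool.Agent.Helper2.SPF

/-- two slow clocks -/
def KK (i s : ℕ) : ℕ := (Nat.log 2 s + i) / 2

/-- smooth part with respect to the clock -/
def yy (i n : ℕ) : ℕ := sm (KK i (v2 n)) n

/-- the colouring -/
def colz (n : ℕ) : ℕ := tp n % 4 + 4 * (v2 (mh n) % 2) + 8 * ((mh n / 2 ^ v2 (mh n) / 2) % 2) +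
  16 * (if v2 n < v2 (mh n) then 1 else 0) + 32 * (sb (yy 0 n) % 2) +
  64 * ((Nat.log 2 (yy 0 n) / 2 ^ v2 (mh n)) % 2) + 128 * (sb (yy 1 n) % 2) +
  256 * ((Nat.log 2 (yy 1 n) / 2 ^ v2 (mh n)) % 2)

lemma colz_lt (n : ℕ) : colz n < 512 := by
  unfold colz
  split_ifs <;> omega

lemma colz_eq {n m : ℕ} (h : colz n = colz m) : tp n % 4 = tp m % 4 ∧
    v2 (mh n) % 2 = v2 (mh m) % 2 ∧
    (mh n / 2 ^ v2 (mh n) / 2) % 2 = (mh m / 2 ^ v2 (mh m) / 2) % 2 ∧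
    (v2 n < v2 (mh n) ↔ v2 m < v2 (mh m)) ∧
    (∀ i, i = 0 ∨ i = 1 → sb (yy i n) % 2 = sb (yy i m) % 2 ∧
      (Nat.log 2 (yy i n) / 2 ^ v2 (mh n)) % 2 = (Nat.log 2 (yy i m) / 2 ^ v2 (mh m)) % 2) := by
  unfold colz at h
  have e : ∀ i, i = 0 ∨ i = 1 → sb (yy i n) % 2 = sb (yy i m) % 2 ∧
      (Nat.log 2 (yy i n) / 2 ^ v2 (mh n)) % 2 = (Nat.log 2 (yy i m) / 2 ^ v2 (mh m)) % 2 := by
    rintro i (rfl | rfl)
    · split_ifs at h <;> omega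
    · split_ifs at h <;> omega
  refine ⟨?_, ?_, ?_, ?_, e⟩
  · split_ifs at h <;> omega
  · split_ifs at h <;> omega
  · split_ifs at h <;> omega
  · split_ifs at h with h1 h2 h2 <;> omega

/-- `A` clusters at zero in the profinite topology -/
def Z (A : Set ℕ) : Prop := ∀ M : ℕ, 0 < M → ∃ a ∈ A, 0 < a ∧ M ∣ a

lemma Z_dvd {A : Set ℕ} (hA : Z A) {M : ℕ} (hM : 0 < M) : Z {a ∈ A | 0 < a ∧ M ∣ a} := by
  intro M' hM'
  obtain ⟨a, h1, h2, h3⟩ := hA (M * M') (Nat.mul_pos hM hM')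
  exact ⟨a, ⟨h1, h2, (Dvd.intro _ rfl).trans h3⟩, h2, (Dvd.intro_left _ rfl).trans h3⟩

lemma Z_or {A : Set ℕ} (hA : Z A) (p q : ℕ → Prop) (h : ∀ a ∈ A, p a ∨ q a) :
    Z {a ∈ A | p a} ∨ Z {a ∈ A | q a} := by
  by_contra hcon
  rw [not_or] at hcon
  obtain ⟨h1, h2⟩ := hcon
  unfold Z at h1 h2
  push Not at h1 h2
  obtain ⟨M1, hM1, g1⟩ := h1
  obtain ⟨M2, hM2, g2⟩ := h2
  obtain ⟨a, ha, ha0, had⟩ := hA (M1 * M2) (Nat.mul_pos hM1 hM2)
  rcases h a ha with hp | hq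
  · exact g1 a ⟨ha, hp⟩ ha0 ((Dvd.intro _ rfl).trans had)
  · exact g2 a ⟨ha, hq⟩ ha0 ((Dvd.intro_left _ rfl).trans had)

lemma Z_pigeon (f : ℕ → ℕ) : ∀ (C : ℕ) {A : Set ℕ}, Z A → (∀ a ∈ A, f a ≤ C) →
    ∃ v, Z {a ∈ A | f a = v} := by
  intro C
  induction C with
  | zero =>
    intro A hA h
    refine ⟨0, ?_⟩
    have : {a ∈ A | f a = 0} = A := by
      ext a
      exact ⟨fun h' => h'.1, fun h' => ⟨h', by have := h a h'; omega⟩⟩
    rw [this]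
    exact hA
  | succ C ih =>
    intro A hA h
    rcases Z_or hA (fun a => f a ≤ C) (fun a => f a = C + 1)
      (fun a ha => by have := h a ha; omega) with h1 | h1
    · obtain ⟨v, hv⟩ := ih h1 (fun a ha => ha.2)
      refine ⟨v, fun M hM => ?_⟩
      obtain ⟨a, ⟨⟨g1, -⟩, g2⟩, g3, g4⟩ := hv M hM
      exact ⟨a, ⟨g1, g2⟩, g3, g4⟩
    · exact ⟨C + 1, h1⟩

lemma sb_cases {Y : ℕ} (hY : 0 < Y) : sb Y = 2 ∨ sb Y = 3 := by
  have hQ0 : 0 < 2 ^ (Nat.log 2 Y) := by positivity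
  have h1 : 2 ^ (Nat.log 2 Y) ≤ Y := Nat.pow_log_le_self 2 (by omega)
  have h2 := Nat.lt_pow_succ_log_self (b := 2) (by norm_num) Y
  rw [pow_succ] at h2
  have hsl : 2 ≤ sb Y := (Nat.le_div_iff_mul_le hQ0).mpr (by linarith)
  have hsu : sb Y < 4 := (Nat.div_lt_iff_lt_mul hQ0).mpr (by linarith)
  omega

lemma lt_two_pow_add (a : ℕ) : 4 * a < 2 ^ (a + 2) := by
  have h := Nat.lt_two_pow_self (n := a)
  rw [pow_add]
  omega

lemma mh_pos {a : ℕ} (ha : 4 ≤ a) : mh a ≠ 0 := by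
  have := (tp_spec ha).2.2.2.2.2
  unfold mh
  omega

/-- the main point: if the exponents of 2 in `mh` are constant and different -/
lemma core (A B : Set ℕ) (k T vA vB : ℕ) (hA : Z A) (hB : Z B) (hA4 : ∀ a ∈ A, 4 ≤ a)
    (hB4 : ∀ b ∈ B, 4 ≤ b) (hTA : ∀ a ∈ A, tp a = T) (hT : T ≠ 5)
    (hadd : ∀ a ∈ A, ∀ b ∈ B, mh (a * b) = mh a + mh b)
    (hvA : ∀ a ∈ A, v2 (mh a) = vA) (hvB : ∀ b ∈ B, v2 (mh b) = vB) (hlt : vA < vB)
    (hmono : ∀ a ∈ A, ∀ b ∈ B, colz (a + b) = k ∧ colz (a * b) = k) : False := by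
  obtain ⟨a, ha, -, -⟩ := hA 1 one_pos
  have ha4 := hA4 a ha
  obtain ⟨b, hb, hb0, hbd⟩ := hB (2 ^ (2 ^ (2 * a) + v2 a)) (by positivity)
  have hs : 2 ^ (2 * a) + v2 a ≤ v2 b := le_v2 (by omega) hbd
  have hp0 : 0 < 2 ^ (2 * a) := by positivity
  have hlog : 2 * a ≤ Nat.log 2 (v2 b) :=
    (Nat.le_log_iff_pow_le (by norm_num) (by omega)).mpr (by omega)
  have hvab : v2 (a * b) = v2 a + v2 b := v2_mul (by omega) (by omega)
  have hl1 : Nat.log 2 (v2 b) ≤ Nat.log 2 (v2 (a * b)) := Nat.log_mono_right (by omega)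
  have hl2 : Nat.log 2 (v2 (a * b)) ≤ Nat.log 2 (v2 b) + 1 := by
    have h1 : v2 (a * b) ≤ v2 b * 2 := by omega
    have h2 := Nat.log_mono_right (b := 2) h1
    rw [Nat.log_mul_base (by norm_num) (by omega)] at h2
    exact h2
  obtain ⟨i, hi, hK⟩ : ∃ i, (i = 0 ∨ i = 1) ∧ KK i (v2 (a * b)) = KK i (v2 b) := by
    unfold KK
    by_cases h : (Nat.log 2 (v2 (a * b)) + 0) / 2 = (Nat.log 2 (v2 b) + 0) / 2
    · exact ⟨0, Or.inl rfl, h⟩
    · exact ⟨1, Or.inr rfl, by omega⟩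
  set K := KK i (v2 b) with hKdef
  have haK : a ≤ K := by
    rw [hKdef]
    unfold KK
    omega
  have hM2 : 0 < b * (K.factorial * 2 ^ (b + 2)) := by
    have := Nat.factorial_pos K
    positivity
  obtain ⟨a', ha', ha'0, q, hq⟩ := hA (b * (K.factorial * 2 ^ (b + 2))) hM2
  have hz3 : a' + b = b * (K.factorial * (2 ^ (b + 2) * q) + 1) := by
    rw [hq]
    ring
  have hd : 2 ^ (b + 2) ∣ a' := ⟨b * K.factorial * q, by rw [hq]; ring⟩
  have hcol : colz (a' + b) = colz (a * b) := by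
    rw [(hmono a' ha' b hb).1, (hmono a ha b hb).2]
  obtain ⟨-, -, -, -, hc⟩ := colz_eq hcol
  obtain ⟨hsb, hdig⟩ := hc i hi
  have hv3 : v2 (a' + b) = v2 b := by
    rw [hz3]
    exact v2_fact (by omega) (by omega) _
  have hy3 : yy i (a' + b) = sm K b := by
    unfold yy
    rw [hv3, ← hKdef, hz3, sm_mul K (by omega) (by omega), sm_fact, mul_one]
  have hy2 : yy i (a * b) = a * sm K b := by
    unfold yy
    rw [hK, sm_mul K (by omega) (by omega), sm_self (by omega) haK]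
  have hY0 := sm_pos K b
  rw [hy3, hy2] at hsb hdig
  have hsb' : sb (a * sm K b) = sb (sm K b) := by
    rcases sb_cases hY0 with h1 | h1 <;>
      rcases sb_cases (Nat.mul_pos (by omega : 0 < a) hY0) with h2 | h2 <;> omega
  have hlg := log_mul_of_sb ha4 hY0 (by rw [hTA a ha]; exact hT) hsb'
  have hm3 : mh (a' + b) = mh a' := by
    have := (tp_add hb0 ha'0 hd (lt_two_pow_add b)).2.2
    rw [add_comm] at this
    exact this
  rw [hm3, hvA a' ha', hadd a ha b hb, hlg] at hdig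
  have hv2 : v2 (mh a + mh b) = vA := by
    rw [v2_add_of_lt (mh_pos ha4) (mh_pos (hB4 b hb)) (by rw [hvA a ha, hvB b hb]; exact hlt),
      hvA a ha]
  rw [hv2] at hdig
  have hf := digit_flip (Nat.log 2 (sm K b)) (mh a) (mh_pos ha4)
  rw [hvA a ha] at hf
  exact hf hdig.symm

/-- leading digits of one of the two sets -/
private lemma lead (A B : Set ℕ) (k : ℕ) (hA : Z A) (hB : Z B) (hA4 : ∀ a ∈ A, 4 ≤ a)
    (hmono : ∀ a ∈ A, ∀ b ∈ B, colz (a + b) = k ∧ colz (a * b) = k) :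
    ∃ B' : Set ℕ, B' ⊆ B ∧ Z B' ∧ (∀ b ∈ B', 4 ≤ b) ∧ ∀ b ∈ B', tp b = 4 + k % 4 := by
  obtain ⟨a, ha, ha0, -⟩ := hA 1 one_pos
  refine ⟨{b ∈ B | 0 < b ∧ 2 ^ (a + 2) ∣ b}, fun b hb => hb.1, Z_dvd hB (by positivity), ?_, ?_⟩
  · rintro b ⟨-, hb0, hbd⟩
    have h1 := Nat.le_of_dvd hb0 hbd
    have h2 : 2 ^ 2 ≤ 2 ^ (a + 2) := Nat.pow_le_pow_right (by norm_num) (by omega)
    omega
  · rintro b ⟨hb, hb0, hbd⟩
    have h1 := (tp_add ha0 hb0 hbd (lt_two_pow_add a)).2.1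
    have h2 := (hmono a ha b hb).1
    have h3 : tp (a + b) % 4 = k % 4 := by
      rw [← h2]
      unfold colz
      split_ifs <;> omega
    have h4 := tp_spec (n := a + b) (by have := hA4 a ha; omega)
    omega

/-- boundedness of the exponent of 2 in `mh` -/
private lemma bdd (A B : Set ℕ) (k : ℕ) (hA : Z A) (hB : Z B) (hA4 : ∀ a ∈ A, 4 ≤ a)
    (hB4 : ∀ b ∈ B, 4 ≤ b) (hadd : ∀ a ∈ A, ∀ b ∈ B, mh (a * b) = mh a + mh b)
    (hmono : ∀ a ∈ A, ∀ b ∈ B, colz (a + b) = k ∧ colz (a * b) = k) :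
    ∃ (B' : Set ℕ) (v : ℕ), B' ⊆ B ∧ Z B' ∧ ∀ b ∈ B', v2 (mh b) = v := by
  obtain ⟨a, ha, ha0, -⟩ := hA 1 one_pos
  have ha4 := hA4 a ha
  have hB' : Z {b ∈ B | 0 < b ∧ 2 ^ (a + 2 + mh a) ∣ b} := Z_dvd hB (by positivity)
  have hbound : ∀ b ∈ {b ∈ B | 0 < b ∧ 2 ^ (a + 2 + mh a) ∣ b},
      v2 (mh b) ≤ v2 a + v2 (mh a) := by
    rintro b ⟨hb, hb0, hbd⟩
    by_contra hcon
    have hd2 : 2 ^ (a + 2) ∣ b := (pow_dvd_pow 2 (by omega)).trans hbd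
    have hvb : a + 2 + mh a ≤ v2 b := le_v2 (by omega) hbd
    have hva : v2 a < a + 2 := v2_lt (by omega) (by have := lt_two_pow_add a; omega)
    have hvma : v2 (mh a) < mh a := v2_lt (mh_pos ha4) Nat.lt_two_pow_self
    have h1 := (tp_add ha0 hb0 hd2 (lt_two_pow_add a)).2.2
    have h2 : v2 (a + b) = v2 a := v2_add_of_lt (by omega) (by omega) (by omega)
    have h3 : v2 (mh (a * b)) = v2 (mh a) := by
      rw [hadd a ha b hb]
      exact v2_add_of_lt (mh_pos ha4) (mh_pos (hB4 b hb)) (by omega)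
    have h4 : v2 (a * b) = v2 a + v2 b := v2_mul (by omega) (by omega)
    have hcol : colz (a + b) = colz (a * b) := by
      rw [(hmono a ha b hb).1, (hmono a ha b hb).2]
    have h5 := (colz_eq hcol).2.2.2.1
    rw [h1, h2, h3, h4] at h5
    omega
  obtain ⟨v, hv⟩ := Z_pigeon (fun b => v2 (mh b)) _ hB' hbound
  exact ⟨_, v, fun b hb => hb.1.1, hv, fun b hb => hb.2⟩

/-- no two sets clustering at zero have monochromatic sums and products -/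
theorem zero_fibre (A B : Set ℕ) (k : ℕ) (hA : Z A) (hB : Z B)
    (hmono : ∀ a ∈ A, ∀ b ∈ B, colz (a + b) = k ∧ colz (a * b) = k) : False := by
  -- elements at least 4
  have hA0 := Z_dvd hA (M := 4) (by norm_num)
  have hB0 := Z_dvd hB (M := 4) (by norm_num)
  have hA04 : ∀ a ∈ {a ∈ A | 0 < a ∧ 4 ∣ a}, 4 ≤ a := fun a ha => Nat.le_of_dvd ha.2.1 ha.2.2
  have hB04 : ∀ b ∈ {b ∈ B | 0 < b ∧ 4 ∣ b}, 4 ≤ b := fun b hb => Nat.le_of_dvd hb.2.1 hb.2.2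
  have hm0 : ∀ a ∈ {a ∈ A | 0 < a ∧ 4 ∣ a}, ∀ b ∈ {b ∈ B | 0 < b ∧ 4 ∣ b},
      colz (a + b) = k ∧ colz (a * b) = k := fun a ha b hb => hmono a ha.1 b hb.1
  have hm0' : ∀ b ∈ {b ∈ B | 0 < b ∧ 4 ∣ b}, ∀ a ∈ {a ∈ A | 0 < a ∧ 4 ∣ a},
      colz (b + a) = k ∧ colz (b * a) = k := fun b hb a ha => by
    rw [add_comm, mul_comm]
    exact hmono a ha.1 b hb.1
  -- leading digits
  obtain ⟨B1, hB1s, hB1, hB14, hB1t⟩ := lead _ _ k hA0 hB0 hA04 hm0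
  obtain ⟨A1, hA1s, hA1, hA14, hA1t⟩ := lead _ _ k hB0 hA0 hB04 hm0'
  have hm1 : ∀ a ∈ A1, ∀ b ∈ B1, colz (a + b) = k ∧ colz (a * b) = k :=
    fun a ha b hb => hm0 a (hA1s ha) b (hB1s hb)
  have hm1' : ∀ b ∈ B1, ∀ a ∈ A1, colz (b + a) = k ∧ colz (b * a) = k :=
    fun b hb a ha => hm0' b (hB1s hb) a (hA1s ha)
  have hmul : ∀ a ∈ A1, ∀ b ∈ B1, 4 + k % 4 ≠ 5 ∧ mh (a * b) = mh a + mh b := by
    intro a ha b hb
    have h4a := hA14 a ha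
    have h4b := hB14 b hb
    have h3 : tp (a * b) % 4 = k % 4 := by
      rw [← (hm1 a ha b hb).2]
      unfold colz
      split_ifs <;> omega
    have h4 := tp_spec (n := a * b) (by nlinarith)
    exact mh_mul h4a h4b (hA1t a ha) (hB1t b hb) (by omega)
  obtain ⟨a0, ha0, -, -⟩ := hA1 1 one_pos
  obtain ⟨b0, hb0, -, -⟩ := hB1 1 one_pos
  have hT := (hmul a0 ha0 b0 hb0).1
  have hadd : ∀ a ∈ A1, ∀ b ∈ B1, mh (a * b) = mh a + mh b := fun a ha b hb => (hmul a ha b hb).2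
  have hadd' : ∀ b ∈ B1, ∀ a ∈ A1, mh (b * a) = mh b + mh a := fun b hb a ha => by
    rw [mul_comm, hadd a ha b hb, add_comm]
  -- constant exponents
  obtain ⟨B2, vB, hB2s, hB2, hvB⟩ := bdd A1 B1 k hA1 hB1 hA14 hB14 hadd hm1
  obtain ⟨A2, vA, hA2s, hA2, hvA⟩ := bdd B1 A1 k hB1 hA1 hB14 hA14 hadd' hm1'
  rcases lt_trichotomy vA vB with hlt | heq | hgt
  · exact core A2 B2 k _ vA vB hA2 hB2 (fun a ha => hA14 a (hA2s ha)) (fun b hb => hB14 b (hB2s hb))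
      (fun a ha => hA1t a (hA2s ha)) hT (fun a ha b hb => hadd a (hA2s ha) b (hB2s hb)) hvA hvB hlt
      (fun a ha b hb => hm1 a (hA2s ha) b (hB2s hb))
  · -- equal exponents: Schur type argument
    obtain ⟨a, ha, hap, -⟩ := hA2 1 one_pos
    obtain ⟨b, hb, hbp, hbd⟩ := hB2 (2 ^ (a + 2)) (by positivity)
    obtain ⟨a', ha', ha'p, ha'd⟩ := hA2 (2 ^ (b + 2)) (by positivity)
    have hab := (tp_add hap hbp hbd (lt_two_pow_add a)).2.2
    have hba := (tp_add hbp ha'p ha'd (lt_two_pow_add b)).2.2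
    rw [add_comm] at hba
    have c1 := colz_eq ((hm1 a (hA2s ha) b (hB2s hb)).1.trans (hm1 a' (hA2s ha') b (hB2s hb)).1.symm)
    have c2 := colz_eq ((hm1 a (hA2s ha) b (hB2s hb)).1.trans (hm1 a' (hA2s ha') b (hB2s hb)).2.symm)
    have e1 := c1.2.2.1
    have e2 := c2.2.1
    rw [hab, hba, hvB b hb, hvA a' ha', heq] at e1
    rw [hab, hadd a' (hA2s ha') b (hB2s hb), hvB b hb] at e2
    obtain ⟨l, hl⟩ := v2_decomp (mh_pos (hB14 b (hB2s hb)))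
    obtain ⟨j, hj⟩ := v2_decomp (mh_pos (hA14 a' (hA2s ha')))
    rw [hvB b hb] at hl
    rw [hvA a' ha', heq] at hj
    have hp0 : 0 < 2 ^ vB := by positivity
    rw [hl, hj, Nat.mul_div_cancel_left _ hp0, Nat.mul_div_cancel_left _ hp0] at e1
    have hlj : l % 2 = j % 2 := by omega
    obtain ⟨r, hr⟩ : ∃ r, l + j + 1 = 2 * r + 1 := ⟨(l + j) / 2, by omega⟩
    have hsum : mh a' + mh b = 2 ^ (vB + 1) * (2 * r + 1) := by
      rw [hj, hl, pow_succ]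
      calc 2 ^ vB * (2 * j + 1) + 2 ^ vB * (2 * l + 1) = 2 ^ vB * 2 * (l + j + 1) := by ring
        _ = 2 ^ vB * 2 * (2 * r + 1) := by rw [hr]
    rw [v2_eq hsum] at e2
    omega
  · exact core B2 A2 k _ vB vA hB2 hA2 (fun b hb => hB14 b (hB2s hb)) (fun a ha => hA14 a (hA2s ha))
      (fun b hb => hB1t b (hB2s hb)) hT (fun b hb a ha => hadd' b (hB2s hb) a (hA2s ha)) hvB hvA hgt
      (fun b hb a ha => hm1' b (hB2s hb) a (hA2s ha))

end Pool.Agent.Helper2.SPF
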